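import Pool.Agent.MP_861c96_gt.Defs
import Pool.Agent.MP_861c96_gt.Mg.Curve
import Pool.Agent.MP_861c96_gt.Mg.H50_Num

namespace Pool.Agent.Results.MP_861c96_gt.LowerBound

open Pool.Agent.MP_861c96_gt

/-- Every admissible curve has length at least 9.53. -/
theorem result : ENNReal.ofReal 9.53 ≤ Lstar :=
  le_iInf₂ fun _ h => H50.curve_bound H50.num h.1 (cover_of_planes h.2.2)

end Pool.Agent.Results.MP_861c96_gt.LowerBound
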