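import Pool.Agent.MP_861c96_gt.Defs
import Pool.Agent.MP_861c96_gt.Mg.Main

namespace Pool.Agent.Results.MP_861c96_gt.NoHelix

open Pool.Agent.MP_861c96_gt

/-- No admissible curve of minimal length is a half-turn helix with a straight segment attached
at each end. -/
theorem result :
    ¬ ∃ γ : ℝ → EuclideanSpace ℝ (Fin 3),
      Admissible γ ∧ curveLength γ = Lstar ∧ IsHelixWithSegments γ := by
  rintro ⟨γ, h1, h2, h3⟩
  exact no_helix_minimiser γ h1 h2 h3

end Pool.Agent.Results.MP_861c96_gt.NoHelix
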