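import Pool.Agent.MP_861c96_gt.Defs
import Pool.Agent.MP_861c96_gt.Mg.H3_Check

namespace Pool.Agent.Results.MP_861c96_gt.UpperBound

open Pool.Agent.MP_861c96_gt

/-- The infimum of the lengths of admissible curves is at most 9.57633. -/
theorem result : Lstar ≤ ENNReal.ofReal 9.57633 :=
  H3.lstar_le

end Pool.Agent.Results.MP_861c96_gt.UpperBound
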